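import Pool.Agent.TH516.SH.SimplexMain

set_option autoImplicit false

/-!
# Covering shadows when the covering body is a simplex: the bound is attained
-/

namespace Pool.Agent.TH516.SH.Simplex

open MeasureTheory Set Finset
open scoped ENNReal Pointwise

variable {n : ℕ} (b : AffineBasis (Fin (n + 1)) ℝ (EuclideanSpace ℝ (Fin n)))

/-- the truncated simplex -/
def Trunc (ε : ℝ) : Set (EuclideanSpace ℝ (Fin n)) :=
  {x | (∀ i, -ε ≤ b.coord i x) ∧ ∀ i j, j ≠ i → ((n : ℝ) - 1) * ε ≤ b.coord i x + b.coord j x}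

theorem trunc_compact (ε : ℝ) (hε : 0 ≤ ε) : IsCompact (Trunc b ε) := by
  have hr : 0 < 1 + ((n : ℝ) + 1) * ε := by positivity
  obtain ⟨v, hv⟩ := hom_exists b (1 + ((n : ℝ) + 1) * ε) (fun _ => -ε) (by simp)
  have hcomp : IsCompact ((fun x => (1 + ((n : ℝ) + 1) * ε) • x + v) ''
      convexHull ℝ (Set.range b)) :=
    ((Set.finite_range b).isCompact_convexHull ℝ).image (by fun_prop)
  refine hcomp.of_isClosed_subset ?_ ?_
  · have : Trunc b ε = (⋂ i, {x | -ε ≤ b.coord i x}) ∩
        ⋂ i, ⋂ j, ⋂ (_ : j ≠ i), {x | ((n : ℝ) - 1) * ε ≤ b.coord i x + b.coord j x} := by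
      ext y
      simp [Trunc]
    rw [this]
    exact (isClosed_iInter fun i => isClosed_le continuous_const (coord_cont b i)).inter
      (isClosed_iInter fun i => isClosed_iInter fun j => isClosed_iInter fun _ =>
        isClosed_le continuous_const ((coord_cont b i).add (coord_cont b j)))
  · intro y hy
    obtain ⟨x, hx⟩ := exists_pt b (fun j => (b.coord j y + ε) / (1 + ((n : ℝ) + 1) * ε)) (by
      rw [← sum_div, sum_add_distrib, sum_coord b y, div_eq_one_iff_eq hr.ne']
      simp)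
    refine ⟨x, ?_, ?_⟩
    · rw [simplex_eq]
      intro j
      rw [hx]
      exact div_nonneg (by linarith [hy.1 j]) hr.le
    · apply b.ext_elem
      intro j
      simp only
      rw [hv, hx]
      field_simp
      ring

theorem trunc_convex (ε : ℝ) : Convex ℝ (Trunc b ε) := by
  intro x hx y hy s t hs ht hst
  have h : ∀ i, b.coord i (s • x + t • y) = s * b.coord i x + t * b.coord i y := by
    intro i
    have := Convex.combo_affine_apply (f := b.coord i) (x := x) (y := y) hst
    simpa [smul_eq_mul] using this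
  refine ⟨fun i => ?_, fun i j hij => ?_⟩
  · rw [h]
    have h1 := mul_le_mul_of_nonneg_left (hx.1 i) hs
    have h2 := mul_le_mul_of_nonneg_left (hy.1 i) ht
    have h3 : s * -ε + t * -ε = -ε := by rw [← add_mul, hst, one_mul]
    linarith
  · rw [h, h]
    have h1 := mul_le_mul_of_nonneg_left (hx.2 i j hij) hs
    have h2 := mul_le_mul_of_nonneg_left (hy.2 i j hij) ht
    have h3 : s * (((n : ℝ) - 1) * ε) + t * (((n : ℝ) - 1) * ε) = ((n : ℝ) - 1) * ε := by
      rw [← add_mul, hst, one_mul]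
    linarith

theorem trunc_nonempty (hn : 2 ≤ n) (ε : ℝ) (hε : 0 ≤ ε) (h : ((n : ℝ) ^ 2 - 1) * ε ≤ 1) :
    (Trunc b ε).Nonempty := by
  have hn2 : (2 : ℝ) ≤ n := by exact_mod_cast hn
  obtain ⟨x, hx⟩ := exists_pt b (fun _ => 1 / ((n : ℝ) + 1)) (by
    simp
    field_simp)
  have h1 : 0 < 1 / ((n : ℝ) + 1) := by positivity
  refine ⟨x, fun i => ?_, fun i j _ => ?_⟩
  · rw [hx]
    linarith
  · rw [hx, hx, ← add_div, le_div_iff₀ (by positivity)]
    nlinarith

/-- The simplex covers the shadows of the truncated simplex. -/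
theorem trunc_cover (ε : ℝ) (hε : 0 ≤ ε)
    (u : EuclideanSpace ℝ (Fin n)) (hu : u ≠ 0) :
    ∃ v : EuclideanSpace ℝ (Fin n), ∀ x ∈ Trunc b ε, ∃ s : ℝ,
      ∀ i, 0 ≤ b.coord i (x + v + s • u) := by
  obtain ⟨m, -, hm⟩ := Finset.exists_max_image (univ : Finset (Fin (n + 1)))
    (fun i => |(b.coord i).linear u|) ⟨0, Finset.mem_univ 0⟩
  have hg : (b.coord m).linear u ≠ 0 := by
    intro h0
    apply hu
    have h1 : ∀ i, (b.coord i).linear u = 0 := by
      intro i
      have := hm i (Finset.mem_univ i)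
      rw [h0, abs_zero] at this
      exact abs_eq_zero.1 (le_antisymm this (abs_nonneg _))
    have h2 : (0 : EuclideanSpace ℝ (Fin n)) + u = 0 := by
      apply b.ext_elem
      intro i
      rw [coord_add, h1, add_zero]
    simpa using h2
  obtain ⟨v, hv⟩ := exists_vec b (fun i => ε - (if i = m then ((n : ℝ) + 1) * ε else 0)) (by
    rw [sum_sub_distrib]
    simp)
  refine ⟨v, fun x hx => ?_⟩
  by_cases hq : (n : ℝ) * ε - b.coord m x ≤ 0
  · refine ⟨0, fun i => ?_⟩
    rw [zero_smul, add_zero, coord_add, hv]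
    by_cases hi : i = m
    · rw [if_pos hi, hi]
      linarith
    · rw [if_neg hi]
      linarith [hx.1 i]
  · push Not at hq
    refine ⟨((n : ℝ) * ε - b.coord m x) / (b.coord m).linear u, fun i => ?_⟩
    rw [coord_add, coord_add, hv, map_smul, smul_eq_mul]
    by_cases hi : i = m
    · rw [if_pos hi, hi, div_mul_cancel₀ _ hg]
      linarith
    · rw [if_neg hi]
      have h1 : |(b.coord i).linear u / (b.coord m).linear u| ≤ 1 := by
        rw [abs_div]
        exact div_le_one_of_le₀ (hm i (Finset.mem_univ i)) (abs_nonneg _)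
      have h2 := (abs_le.1 h1).1
      have h3 := mul_le_mul_of_nonneg_left h2 hq.le
      have h4 : ((n : ℝ) * ε - b.coord m x) / (b.coord m).linear u * (b.coord i).linear u =
          ((n : ℝ) * ε - b.coord m x) * ((b.coord i).linear u / (b.coord m).linear u) := by
        ring
      rw [h4]
      have h5 := hx.2 m i hi
      linarith

/-- The volume of the truncated simplex, lower bound. -/
theorem trunc_vol (hn : 2 ≤ n) (ε θ : ℝ) (hθe : θ = ((n : ℝ) ^ 2 - 1) * ε) (hε : 0 ≤ ε)
    (hθ : θ < 1) :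
    ((2 * n * (1 - θ / 2) ^ n - (n + 1) * (1 - θ) ^ n) / ((n : ℝ) - 1)) *
      volume.real {x : EuclideanSpace ℝ (Fin n) | ∀ i, 0 ≤ b.coord i x} ≤
      volume.real (Trunc b ε) := by
  have hn2 : (2 : ℝ) ≤ n := by exact_mod_cast hn
  have hn1 : (0 : ℝ) < (n : ℝ) - 1 := by linarith
  have hLt := L_ne_top b
  set L := {x : EuclideanSpace ℝ (Fin n) | ∀ i, 0 ≤ b.coord i x} with hL
  set V := volume.real L with hV
  have hθ0 : 0 ≤ θ := by
    rw [hθe]
    apply mul_nonneg _ hε
    nlinarith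
  have hα : 0 < 1 - θ / 2 := by linarith
  have hβ : 0 < 1 - θ := by linarith
  set d := ((n : ℝ) - 1) * ε with hd
  have hd0 : 0 ≤ d := mul_nonneg hn1.le hε
  set A := {y : EuclideanSpace ℝ (Fin n) | ∀ j, d / 2 ≤ b.coord j y} with hA
  set B : ℝ → Fin (n + 1) → Set (EuclideanSpace ℝ (Fin n)) := fun c i =>
    {y | b.coord i y ≤ c ∧ ∀ j, j ≠ i → d ≤ b.coord i y + b.coord j y} with hB
  have hAv : volume A = ENNReal.ofReal ((1 - θ / 2) ^ n) * volume L :=
    A_vol b (d / 2) (1 - θ / 2) (by rw [hd, hθe]; ring) hα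
  have hAr : volume.real A = (1 - θ / 2) ^ n * V := by
    rw [Measure.real, hAv, ENNReal.toReal_mul, ENNReal.toReal_ofReal (by positivity)]
    rfl
  have hBv : ∀ i, volume (B (d / 2) i) = ENNReal.ofReal ((1 - θ / 2) ^ n) *
      (ENNReal.ofReal (1 / ((n : ℝ) - 1)) * volume L) := fun i =>
    B_vol b i hn (d / 2) d (1 - θ / 2) (by rw [hd, hθe]; ring) hα
  have hBv' : ∀ i, volume (B (-ε) i) = ENNReal.ofReal ((1 - θ) ^ n) *
      (ENNReal.ofReal (1 / ((n : ℝ) - 1)) * volume L) := fun i =>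
    B_vol b i hn (-ε) d (1 - θ) (by rw [hd, hθe]; ring) hβ
  have hBr : ∀ i, volume.real (B (d / 2) i) = (1 - θ / 2) ^ n * (1 / ((n : ℝ) - 1) * V) := by
    intro i
    rw [Measure.real, hBv, ENNReal.toReal_mul, ENNReal.toReal_mul,
      ENNReal.toReal_ofReal (by positivity), ENNReal.toReal_ofReal (by positivity)]
    rfl
  have hBr' : ∀ i, volume.real (B (-ε) i) = (1 - θ) ^ n * (1 / ((n : ℝ) - 1) * V) := by
    intro i
    rw [Measure.real, hBv', ENNReal.toReal_mul, ENNReal.toReal_mul,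
      ENNReal.toReal_ofReal (by positivity), ENNReal.toReal_ofReal (by positivity)]
    rfl
  have hBt : ∀ i, volume (B (d / 2) i) ≠ ⊤ := by
    intro i
    rw [hBv]
    exact ENNReal.mul_ne_top ENNReal.ofReal_ne_top (ENNReal.mul_ne_top ENNReal.ofReal_ne_top hLt)
  have hBsub : ∀ i, B (-ε) i ⊆ B (d / 2) i := by
    rintro i y ⟨h1, h2⟩
    exact ⟨by linarith, h2⟩
  have hmeas : ∀ c i, MeasurableSet (B c i) := by
    intro c i
    have h1 : IsClosed (B c i) := by
      have : B c i = {y | b.coord i y ≤ c} ∩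
          ⋂ j, ⋂ (_ : j ≠ i), {y | d ≤ b.coord i y + b.coord j y} := by
        ext y
        simp [hB]
      rw [this]
      refine (isClosed_le (coord_cont b i) continuous_const).inter
        (isClosed_iInter fun j => isClosed_iInter fun _ =>
          isClosed_le continuous_const ((coord_cont b i).add (coord_cont b j)))
    exact h1.measurableSet
  -- the caps
  set C : Fin (n + 1) → Set (EuclideanSpace ℝ (Fin n)) := fun i => B (d / 2) i \ B (-ε) i with hC
  have hCm : ∀ i, MeasurableSet (C i) := fun i => (hmeas _ i).diff (hmeas _ i)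
  have hCr : ∀ i, volume.real (C i) =
      ((1 - θ / 2) ^ n - (1 - θ) ^ n) * (1 / ((n : ℝ) - 1) * V) := by
    intro i
    rw [hC]
    simp only
    rw [measureReal_diff (hBsub i) (hmeas _ i) (h₁ := hBt i), hBr, hBr']
    ring
  have hCt : ∀ i, volume (C i) ≠ ⊤ := fun i =>
    ne_top_of_le_ne_top (hBt i) (measure_mono diff_subset)
  have hCd : Pairwise (Function.onFun (AEDisjoint volume) C) := by
    intro i j hij
    refine measure_mono_null ?_ (hyper_null b i (d / 2) (by omega))
    rintro y ⟨⟨⟨hy1, hy2⟩, -⟩, ⟨⟨hy3, -⟩, -⟩⟩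
    have h1 := hy2 j hij.symm
    change b.coord i y = d / 2
    linarith
  have hU : volume.real (⋃ i, C i) = ∑ i, volume.real (C i) := by
    rw [Measure.real, measure_iUnion₀ hCd (fun i => (hCm i).nullMeasurableSet), tsum_fintype,
      ENNReal.toReal_sum (fun i _ => hCt i)]
    rfl
  have hUt : volume (⋃ i, C i) ≠ ⊤ := by
    apply ne_of_lt
    exact (measure_iUnion_fintype_le _ _).trans_lt (ENNReal.sum_lt_top.2 fun i _ => (hCt i).lt_top)
  have hAt : volume A ≠ ⊤ := by
    rw [hAv]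
    exact ENNReal.mul_ne_top ENNReal.ofReal_ne_top hLt
  have hAU : AEDisjoint volume A (⋃ i, C i) := by
    rw [AEDisjoint, Set.inter_iUnion]
    refine measure_iUnion_null fun i => ?_
    refine measure_mono_null ?_ (hyper_null b i (d / 2) (by omega))
    rintro y ⟨hy1, ⟨⟨hy2, -⟩, -⟩⟩
    exact le_antisymm hy2 (hy1 i)
  have hsub : A ∪ ⋃ i, C i ⊆ Trunc b ε := by
    rintro y (hy | hy)
    · refine ⟨fun i => ?_, fun i j _ => ?_⟩
      · linarith [hy i]
      · change d ≤ _
        linarith [hy i, hy j]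
    · obtain ⟨i, ⟨hy1, hy2⟩, hy3⟩ := mem_iUnion.1 hy
      have h1 : -ε < b.coord i y := by
        by_contra hcon
        push Not at hcon
        exact hy3 ⟨hcon, hy2⟩
      have h2 : ∀ j, j ≠ i → d / 2 ≤ b.coord j y := by
        intro j hj
        linarith [hy2 j hj]
      refine ⟨fun j => ?_, fun j k hjk => ?_⟩
      · by_cases hj : j = i
        · rw [hj]; exact h1.le
        · linarith [h2 j hj]
      · change d ≤ _
        by_cases hj : j = i
        · rw [hj] at hjk ⊢
          exact hy2 k hjk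
        · by_cases hk : k = i
          · rw [hk, add_comm]
            exact hy2 j hj
          · linarith [h2 j hj, h2 k hk]
  have hfin := (trunc_compact b ε hε).measure_ne_top (μ := volume)
  calc _ = volume.real A + ∑ i, volume.real (C i) := by
        rw [hAr, Finset.sum_congr rfl (fun i _ => hCr i), sum_const, card_univ, Fintype.card_fin,
          nsmul_eq_mul]
        push_cast
        field_simp
        ring
    _ = volume.real (A ∪ ⋃ i, C i) := by
        rw [← hU, Measure.real, Measure.real, Measure.real,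
          measure_union₀ (MeasurableSet.iUnion hCm).nullMeasurableSet hAU,
          ENNReal.toReal_add hAt hUt]
    _ ≤ volume.real (Trunc b ε) := measureReal_mono hsub hfin

/-- The optimal value. -/
theorem num_eq (hn : 2 ≤ n) (ρ : ℝ) (hρ : 1 ≤ ρ) (hρn : ρ ^ (n - 1) = ((n : ℝ) + 1) / n) :
    (2 * n * (1 - (2 * (ρ - 1) / (2 * ρ - 1)) / 2) ^ n -
      (n + 1) * (1 - 2 * (ρ - 1) / (2 * ρ - 1)) ^ n) / ((n : ℝ) - 1) =
      (((n : ℝ) + 1) / (n - 1)) / (2 * ρ - 1) ^ (n - 1) := by
  obtain ⟨m, rfl⟩ : ∃ m, n = m + 1 := ⟨n - 1, by omega⟩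
  have hm : 1 ≤ m := by omega
  have hm1 : (1 : ℝ) ≤ m := by exact_mod_cast hm
  rw [Nat.add_sub_cancel] at hρn ⊢
  push_cast at hρn ⊢
  have h2ρ : 2 * ρ - 1 ≠ 0 := by linarith
  have e1 : 1 - 2 * (ρ - 1) / (2 * ρ - 1) / 2 = ρ / (2 * ρ - 1) := by
    field_simp
    ring
  have e2 : 1 - 2 * (ρ - 1) / (2 * ρ - 1) = 1 / (2 * ρ - 1) := by
    field_simp
    ring
  rw [e1, e2, div_pow, div_pow, one_pow, pow_succ ρ m, hρn, pow_succ (2 * ρ - 1) m]
  have h3 : (m : ℝ) + 1 - 1 ≠ 0 := by linarith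
  have h4 : (m : ℝ) ≠ 0 := by linarith
  have h5 : (m : ℝ) + 1 ≠ 0 := by linarith
  have h6 : (2 * ρ - 1) ^ m ≠ 0 := pow_ne_zero _ h2ρ
  field_simp

end Pool.Agent.TH516.SH.Simplex
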