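import Mathlib

/-!
# Covering shadows: the containment theorem

If every shadow of `K` fits in the shadow of `L` then `K` fits in a translate of `(n/(n-1)) L`.
-/

set_option autoImplicit false

namespace Pool.Agent.TH516.SH

open scoped RealInnerProductSpace
open Module

/-- Euclidean space of dimension `n` -/
abbrev E (n : ℕ) := EuclideanSpace ℝ (Fin n)

/-- the orthogonal projection of `K` onto the hyperplane orthogonal to the unit vector `u` -/
def shadow {n : ℕ} (u : E n) (K : Set (E n)) : Set (E n) :=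
  (fun x => x - (inner ℝ u x) • u) '' K

/-- the shadow of `L` in direction `u` covers the one of `K`: some translate (by a vector of the
hyperplane orthogonal to `u`) of the shadow of `K` is contained in the shadow of `L` -/
def CoversShadow {n : ℕ} (u : E n) (L K : Set (E n)) : Prop :=
  ∃ v : E n, inner ℝ u v = 0 ∧ ∀ x ∈ shadow u K, x + v ∈ shadow u L

/-- `L` covers the shadows of `K`: this holds for every unit vector `u` -/
def CoversShadows {n : ℕ} (L K : Set (E n)) : Prop :=
  ∀ u : E n, ‖u‖ = 1 → CoversShadow u L K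

/-- usable form: along one unit direction -/
theorem cover_point' {n : ℕ} {L K : Set (E n)} (u : E n) (h : CoversShadow u L K) :
    ∃ w : E n, ∀ x ∈ K, ∃ y ∈ L, ∃ s : ℝ, y = x + w + s • u := by
  obtain ⟨w, -, hw⟩ := h
  refine ⟨w, fun x hx => ?_⟩
  obtain ⟨y, hy, hyx⟩ := hw _ ⟨x, hx, rfl⟩
  refine ⟨y, hy, inner ℝ u y - inner ℝ u x, ?_⟩
  have h1 : y - (inner ℝ u y) • u = x - (inner ℝ u x) • u + w := hyx
  have h2 : y = (x - (inner ℝ u x) • u + w) + (inner ℝ u y) • u := by
    rw [← h1]; abel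
  rw [sub_smul]
  conv_lhs => rw [h2]
  abel

/-- usable form: along every unit direction -/
theorem cover_point {n : ℕ} {L K : Set (E n)} (h : CoversShadows L K) (u : E n) (hu : ‖u‖ = 1) :
    ∃ w : E n, ∀ x ∈ K, ∃ y ∈ L, ∃ s : ℝ, y = x + w + s • u := cover_point' u (h u hu)

/-- a direction killed by all functionals but two -/
theorem exists_dir {n : ℕ} (hn : 2 ≤ n) (f : Fin (n + 1) → (E n →ₗ[ℝ] ℝ)) (i j : Fin (n + 1))
    (hij : i ≠ j) : ∃ u : E n, ‖u‖ = 1 ∧ ∀ l, l ≠ i → l ≠ j → f l u = 0 := by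
  classical
  let F : E n →ₗ[ℝ] ({l : Fin (n + 1) // l ≠ i ∧ l ≠ j} → ℝ) := LinearMap.pi fun l => f l.1
  have hcard : Fintype.card {l : Fin (n + 1) // l ≠ i ∧ l ≠ j} = n - 1 := by
    have h1 : Fintype.card {l : Fin (n + 1) // l ≠ i ∧ l ≠ j} =
        ((Finset.univ.erase i).erase j).card := by
      rw [Fintype.card_subtype]
      congr 1
      ext l
      simp [and_comm]
    rw [h1, Finset.card_erase_of_mem, Finset.card_erase_of_mem (Finset.mem_univ _)]
    · simp
    · simp [hij.symm]
  have hker : LinearMap.ker F ≠ ⊥ := by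
    apply LinearMap.ker_ne_bot_of_finrank_lt
    rw [Module.finrank_fintype_fun_eq_card, hcard, finrank_euclideanSpace_fin]
    omega
  obtain ⟨u, hu, hu0⟩ := Submodule.exists_mem_ne_zero_of_ne_bot hker
  refine ⟨(‖u‖)⁻¹ • u, ?_, ?_⟩
  · rw [norm_smul, norm_inv, norm_norm, inv_mul_cancel₀ (by simpa using hu0)]
  · intro l hi hj
    have := congrFun (LinearMap.mem_ker.1 hu) ⟨l, hi, hj⟩
    simp only [F, LinearMap.pi_apply, Pi.zero_apply] at this
    rw [map_smul, this, smul_zero]

/-- the pair inequality -/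
theorem pair_ineq {n : ℕ} (hn : 2 ≤ n) {L K : Set (E n)} (h : CoversShadows L K)
    (f : Fin (n + 1) → (E n →ₗ[ℝ] ℝ)) (hf : ∑ l, f l = 0) (k : Fin (n + 1) → E n)
    (hk : ∀ l, k l ∈ K) (H : Fin (n + 1) → ℝ) (hH : ∀ l, ∀ y ∈ L, f l y ≤ H l)
    (i j : Fin (n + 1)) (hij : i ≠ j) :
    ∑ l, f l (k l) - f j (k j) + f j (k i) ≤ ∑ l, H l := by
  classical
  obtain ⟨u, hu, hul⟩ := exists_dir hn f i j hij
  obtain ⟨w, hw⟩ := cover_point h u hu
  choose! y hy s hys using hw
  set k' : Fin (n + 1) → E n := Function.update k j (k i) with hk'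
  have hk'K : ∀ l, k' l ∈ K := by
    intro l
    by_cases hl : l = j
    · subst hl; simp [hk', hk]
    · simp [hk', hl, hk]
  have h1 : ∑ l, f l (k' l) = ∑ l, f l (k l) - f j (k j) + f j (k i) := by
    have e1 : ∑ l, f l (k' l) = f j (k' j) + ∑ l ∈ Finset.univ.erase j, f l (k' l) :=
      (Finset.add_sum_erase _ _ (Finset.mem_univ j)).symm
    have e2 : ∑ l, f l (k l) = f j (k j) + ∑ l ∈ Finset.univ.erase j, f l (k l) :=
      (Finset.add_sum_erase _ _ (Finset.mem_univ j)).symm
    have e3 : ∑ l ∈ Finset.univ.erase j, f l (k' l) = ∑ l ∈ Finset.univ.erase j, f l (k l) := by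
      refine Finset.sum_congr rfl fun l hl => ?_
      have : l ≠ j := Finset.ne_of_mem_erase hl
      simp [hk', this]
    rw [e1, e2, e3]
    simp [hk']
    ring
  have h2 : ∑ l, f l (y (k' l)) = ∑ l, f l (k' l) := by
    have e1 : ∀ l, f l (y (k' l)) = f l (k' l) + f l w + s (k' l) * f l u := by
      intro l
      conv_lhs => rw [hys _ (hk'K l)]
      simp [map_add, map_smul]
    have e2 : ∑ l, f l w = 0 := by
      have := congrArg (fun g : E n →ₗ[ℝ] ℝ => g w) hf
      simpa [LinearMap.sum_apply] using this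
    have e3 : ∑ l, f l u = 0 := by
      have := congrArg (fun g : E n →ₗ[ℝ] ℝ => g u) hf
      simpa [LinearMap.sum_apply] using this
    have e4 : ∀ l, s (k' l) * f l u = s (k i) * f l u := by
      intro l
      by_cases hl : l = j
      · subst hl; simp [hk']
      · by_cases hl' : l = i
        · subst hl'; simp [hk', hl]
        · rw [hul l hl' hl]; simp
    simp_rw [e1, Finset.sum_add_distrib, e2]
    simp_rw [e4, ← Finset.mul_sum, e3]
    ring
  rw [← h1, ← h2]
  exact Finset.sum_le_sum fun l _ => hH l _ (hy _ (hk'K l))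

/-- the dual inequality -/
theorem dual_ineq {n : ℕ} (hn : 2 ≤ n) {L K : Set (E n)} (h : CoversShadows L K)
    (f : Fin (n + 1) → (E n →ₗ[ℝ] ℝ)) (hf : ∑ l, f l = 0) (k : Fin (n + 1) → E n)
    (hk : ∀ l, k l ∈ K) (H : Fin (n + 1) → ℝ) (hH : ∀ l, ∀ y ∈ L, f l y ≤ H l) :
    ((n : ℝ) - 1) * ∑ l, f l (k l) ≤ n * ∑ l, H l := by
  have h1 : ∀ j : Fin n, ∑ l, f l (k l) - f j.succ (k j.succ) + f j.succ (k 0) ≤ ∑ l, H l :=
    fun j => pair_ineq hn h f hf k hk H hH 0 j.succ (Fin.succ_ne_zero j).symm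
  have h2 := Finset.sum_le_sum fun (j : Fin n) (_ : j ∈ Finset.univ) => h1 j
  simp only [Finset.sum_add_distrib, Finset.sum_sub_distrib, Finset.sum_const, Finset.card_univ,
    Fintype.card_fin, nsmul_eq_mul] at h2
  have e1 : ∑ l, f l (k l) = f 0 (k 0) + ∑ j : Fin n, f j.succ (k j.succ) := Fin.sum_univ_succ _
  have e2 : f 0 (k 0) + ∑ j : Fin n, f j.succ (k 0) = 0 := by
    have := congrArg (fun g : E n →ₗ[ℝ] ℝ => g (k 0)) hf
    simp only [LinearMap.sum_apply, LinearMap.zero_apply] at this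
    rw [Fin.sum_univ_succ] at this
    exact this
  linarith

/-- `n + 1` points of `K` fit together in a translate of `(n/(n-1)) L` -/
theorem fit_points {n : ℕ} (hn : 2 ≤ n) {L K : Set (E n)} (hLc : IsCompact L) (hLv : Convex ℝ L)
    (hLn : L.Nonempty) (h : CoversShadows L K) (k : Fin (n + 1) → E n) (hk : ∀ l, k l ∈ K) :
    ∃ v : E n, ∀ l, k l + v ∈ (fun y => ((n : ℝ) / (n - 1)) • y) '' L := by
  classical
  set θ : ℝ := (n : ℝ) / (n - 1) with hθ
  have hn1 : (0 : ℝ) < (n : ℝ) - 1 := by
    have : (2 : ℝ) ≤ n := by exact_mod_cast hn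
    linarith
  have hθ0 : 0 < θ := by
    have : (2 : ℝ) ≤ n := by exact_mod_cast hn
    positivity
  by_contra hcon
  push Not at hcon
  set M : Set (E n) := (fun y => θ • y) '' L with hM
  have hMc : IsCompact M := hLc.image (by fun_prop)
  have hMv : Convex ℝ M := by
    have := hLv.smul θ
    rwa [← Set.image_smul] at this
  set P : Set (Fin (n + 1) → E n) := Set.pi Set.univ (fun _ => M) with hP
  set Q : Set (Fin (n + 1) → E n) := {z | ∀ i, z i - k i = z 0 - k 0} with hQ
  have hPc : IsCompact P := isCompact_univ_pi fun _ => hMc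
  have hPv : Convex ℝ P := convex_pi fun _ _ => hMv
  have hQc : IsClosed Q := by
    rw [hQ, Set.ofPred_forall]
    exact isClosed_iInter fun i => isClosed_eq (by fun_prop) (by fun_prop)
  have hQv : Convex ℝ Q := by
    intro a ha b hb s t hs ht hst i
    have h1 := ha i
    have h2 := hb i
    have e : ∀ l, (s • a + t • b) l - k l = s • (a l - k l) + t • (b l - k l) := by
      intro l
      simp only [Pi.add_apply, Pi.smul_apply, smul_sub]
      have : k l = s • k l + t • k l := by rw [← add_smul, hst, one_smul]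
      nth_rewrite 1 [this]
      abel
    rw [e, e, h1, h2]
  have hdis : Disjoint P Q := by
    rw [Set.disjoint_left]
    intro z hzP hzQ
    obtain ⟨l, hl⟩ := hcon (z 0 - k 0)
    apply hl
    rw [← hzQ l]
    have := hzP l (Set.mem_univ _)
    simpa using this
  obtain ⟨g, a, b, hga, hab, hgb⟩ := geometric_hahn_banach_compact_closed hPv hPc hQv hQc hdis
  -- components
  let f : Fin (n + 1) → (E n →ₗ[ℝ] ℝ) := fun l =>
    g.toLinearMap.comp (LinearMap.single ℝ (fun _ : Fin (n + 1) => E n) l)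
  have hgf : ∀ z : Fin (n + 1) → E n, g z = ∑ l, f l (z l) := by
    intro z
    conv_lhs => rw [← Finset.univ_sum_single z]
    rw [map_sum]
    rfl
  -- the functional vanishes on the diagonal
  have hdiag : ∀ v : E n, g (fun _ => v) = 0 := by
    intro v
    by_contra hne
    have hmem : ∀ c : ℝ, (k + c • (fun _ => v) : Fin (n + 1) → E n) ∈ Q := by
      intro c i
      simp
    have h1 := hgb _ (hmem ((b - g k) / g (fun _ => v)))
    rw [map_add, map_smul, smul_eq_mul, div_mul_cancel₀ _ hne] at h1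
    linarith
  have hf0 : ∑ l, f l = 0 := by
    ext v
    rw [LinearMap.sum_apply, LinearMap.zero_apply, ← hgf (fun _ => v), hdiag]
  have hmax : ∀ l, ∃ y ∈ L, ∀ x ∈ L, f l x ≤ f l y := by
    intro l
    have hc : Continuous (f l) := (f l).continuous_of_finiteDimensional
    obtain ⟨y, hy, hmax⟩ := hLc.exists_isMaxOn hLn hc.continuousOn
    exact ⟨y, hy, fun x hx => hmax hx⟩
  choose y hyL hymax using hmax
  have hd := dual_ineq hn h f hf0 k hk (fun l => f l (y l)) (fun l x hx => hymax l x hx)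
  have hb1 : b < ∑ l, f l (k l) := by
    rw [← hgf]
    exact hgb k (fun i => by simp)
  have ha1 : θ * ∑ l, f l (y l) < a := by
    have := hga (fun l => θ • y l) (fun l _ => ⟨y l, hyL l, rfl⟩)
    rw [hgf] at this
    simp only [map_smul, smul_eq_mul, ← Finset.mul_sum] at this
    exact this
  have h3 : ∑ l, f l (k l) ≤ θ * ∑ l, f l (y l) := by
    rw [hθ, div_mul_eq_mul_div, le_div_iff₀ hn1]
    linarith
  linarith

/-- **Containment**: if `L` covers the shadows of `K` then a translate of `K` lies in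
`(n/(n-1)) L`. -/
theorem contain {n : ℕ} (hn : 2 ≤ n) {L K : Set (E n)} (hLc : IsCompact L) (hLv : Convex ℝ L)
    (hLn : L.Nonempty) (hKn : K.Nonempty) (h : CoversShadows L K) :
    ∃ v : E n, ∀ x ∈ K, x + v ∈ (fun y => ((n : ℝ) / (n - 1)) • y) '' L := by
  classical
  set M : Set (E n) := (fun y => ((n : ℝ) / (n - 1)) • y) '' L with hM
  have hMc : IsCompact M := hLc.image (by fun_prop)
  have hMv : Convex ℝ M := by
    have := hLv.smul ((n : ℝ) / (n - 1))
    rwa [← Set.image_smul] at this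
  obtain ⟨x0, hx0⟩ := hKn
  have key := Convex.helly_theorem_compact' (𝕜 := ℝ) (E := E n)
    (F := fun x : K => (fun z => z - x.1) '' M) ?_ ?_ ?_
  · obtain ⟨v, hv⟩ := key
    refine ⟨v, fun x hx => ?_⟩
    have := Set.mem_iInter.1 hv ⟨x, hx⟩
    obtain ⟨z, hz, hzv⟩ := this
    have : x + v = z := by rw [← hzv]; simp
    rw [this]; exact hz
  · intro x
    have := hMv.translate (-x.1)
    simpa [sub_eq_add_neg, add_comm] using this
  · intro x
    exact hMc.image (by fun_prop)
  · intro I hI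
    rcases I.eq_empty_or_nonempty with rfl | ⟨i0, hi0⟩
    · simp
    -- enumerate the points with repetitions
    have hle : I.card ≤ n + 1 := by simpa using hI
    obtain ⟨e⟩ : Nonempty (I ↪ Fin (n + 1)) := by
      apply Function.Embedding.nonempty_of_card_le
      simpa using hle
    let k : Fin (n + 1) → E n := fun l =>
      if hl : ∃ i : I, e i = l then (hl.choose.1.1) else i0.1
    have hk : ∀ l, k l ∈ K := by
      intro l
      by_cases hl : ∃ i : I, e i = l
      · simp only [k, dif_pos hl]; exact hl.choose.1.2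
      · simp only [k, dif_neg hl]; exact i0.2
    obtain ⟨v, hv⟩ := fit_points hn hLc hLv hLn h k hk
    refine ⟨v, ?_⟩
    simp only [Set.mem_iInter]
    intro i hi
    have hex : ∃ i' : I, e i' = e ⟨i, hi⟩ := ⟨⟨i, hi⟩, rfl⟩
    have hki : k (e ⟨i, hi⟩) = i.1 := by
      simp only [k, dif_pos hex]
      have := e.injective hex.choose_spec
      rw [this]
    have := hv (e ⟨i, hi⟩)
    rw [hki] at this
    exact ⟨i.1 + v, this, by simp⟩

end Pool.Agent.TH516.SH
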