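import Pool.Agent.W374.EHBon
import Pool.Agent.W597.EH_BM
import Pool.Agent.W503.EH.Val

/-!
# Covering shadows: the volume inequality from Bonnesen's inequality
-/

set_option autoImplicit false

namespace Pool.Agent.TH516.SH

open MeasureTheory Set Pool.Agent.W503.EH Filter Topology Pointwise

theorem vol_nonneg' {m : ℕ} (K : Set (Fin m → ℝ)) : 0 ≤ vol K := measureReal_nonneg

theorem vol_affine {m : ℕ} (c : ℝ) (hc : 0 ≤ c) (w : Fin m → ℝ) (A : Set (Fin m → ℝ)) :
    vol ((fun y => c • y + w) '' A) = c ^ m * vol A := by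
  have e : (fun y : Fin m → ℝ => c • y + w) '' A = (fun y => y + w) '' (c • A) := by
    rw [← Set.image_smul, Set.image_image]
  have e2 : volume ((fun y : Fin m → ℝ => y + w) '' (c • A)) = volume (c • A) := by
    rw [Set.image_add_right, measure_preimage_add_right]
  unfold vol
  rw [e, measureReal_def, e2, Measure.addHaar_smul_of_nonneg _ hc]
  rw [ENNReal.toReal_mul, ENNReal.toReal_ofReal (by positivity)]
  simp [measureReal_def]

/-- limit step -/
theorem deriv_step {n : ℕ} {a b τ : ℝ} (hb : ∀ t : ℝ, 0 < t → t < 1 →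
    a + (b - a) * t ≤ (1 + t * (τ - 1)) ^ n * a) : b - a ≤ n * (τ - 1) * a := by
  have hd : HasDerivAt (fun t : ℝ => (1 + t * (τ - 1)) ^ n * a) (n * (τ - 1) * a) 0 := by
    have h1 : HasDerivAt (fun t : ℝ => 1 + t * (τ - 1)) (τ - 1) 0 := by
      simpa using ((hasDerivAt_id (0 : ℝ)).mul_const (τ - 1)).const_add 1
    have h2 := (h1.fun_pow n).mul_const a
    have e : ↑n * (1 + (0 : ℝ) * (τ - 1)) ^ (n - 1) * (τ - 1) * a = n * (τ - 1) * a := by
      rw [zero_mul, add_zero, one_pow, mul_one]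
    rw [e] at h2
    exact h2
  have h3 := hd.tendsto_slope_zero_right
  have h4 : ∀ᶠ t : ℝ in 𝓝[>] 0, b - a ≤ t⁻¹ • ((1 + (0 + t) * (τ - 1)) ^ n * a -
      (1 + 0 * (τ - 1)) ^ n * a) := by
    have h5 : Ioo (0 : ℝ) 1 ∈ 𝓝[>] (0 : ℝ) := Ioo_mem_nhdsGT one_pos
    filter_upwards [h5] with t ht
    have h6 := hb t ht.1 ht.2
    rw [smul_eq_mul, zero_add, ← div_eq_inv_mul, le_div_iff₀ ht.1]
    simp only [zero_mul, add_zero, one_pow, one_mul]
    linarith
  exact ge_of_tendsto h3 h4

/-- **One shadow**: if a translate of `B` lies in `τ A` and the volume of one projection of `B` is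
at most the one of `A` then `|B| ≤ ((m+1) τ - m) |A|`. -/
theorem vol_bound (m : ℕ) (A B : Set (Fin (m + 1) → ℝ)) (hA : IsCompact A) (hB : IsCompact B)
    (hcA : Convex ℝ A) (hcB : Convex ℝ B) (hAn : A.Nonempty) (hBn : B.Nonempty)
    (τ : ℝ) (hτ : 1 ≤ τ) (v : Fin (m + 1) → ℝ) (hv : ∀ x ∈ B, ∃ y ∈ A, x + v = τ • y)
    (hp : vol (pr 0 B) ≤ vol (pr 0 A)) :
    vol B ≤ ((m + 1 : ℝ) * τ - m) * vol A := by
  have hA0 := vol_nonneg' A
  by_cases hAB : vol B ≤ vol A
  · have : 0 ≤ ((m : ℝ) + 1) * (τ - 1) * vol A := by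
      have : 0 ≤ τ - 1 := by linarith
      positivity
    nlinarith
  push Not at hAB
  have hBpos : 0 < vol B := lt_of_le_of_lt hA0 hAB
  have hpB : 0 < vol (pr 0 B) := by
    rcases (vol_nonneg' (pr 0 B)).lt_or_eq with h | h
    · exact h
    · exact absurd (t_FUB.2.2 m B hB 0 h.symm) hBpos.ne'
  have hpA : 0 < vol (pr 0 A) := lt_of_lt_of_le hpB hp
  have hBON : S_BON := Pool.Agent.W374.EHBON.t_BON Pool.Agent.W597.EHBM.t_BM
  have main : vol B - vol A ≤ ((m + 1 : ℕ) : ℝ) * (τ - 1) * vol A := by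
    refine deriv_step fun t ht0 ht1 => ?_
    set c : ℝ := 1 + t * (τ - 1) with hc
    have hc0 : 0 < c := by
      have : 0 ≤ t * (τ - 1) := mul_nonneg ht0.le (by linarith)
      linarith
    set C : Set (Fin (m + 1) → ℝ) := (fun y => c • y + (-(t • v))) '' A with hC
    have hCc : IsCompact C := hA.image (by fun_prop)
    have hsub : ∀ x ∈ A, ∀ y ∈ B, (1 - t) • x + t • y ∈ C := by
      intro x hx y hy
      obtain ⟨a, ha, hya⟩ := hv y hy
      have hy' : y = τ • a - v := by rw [← hya]; abel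
      refine ⟨((1 - t) / c) • x + (t * τ / c) • a, ?_, ?_⟩
      · refine hcA hx ha (by apply div_nonneg <;> linarith) (by positivity) ?_
        rw [← add_div, div_eq_one_iff_eq hc0.ne']
        rw [hc]; ring
      · simp only
        rw [hy', smul_add, smul_smul, smul_smul, mul_div_cancel₀ _ hc0.ne',
          mul_div_cancel₀ _ hc0.ne', smul_sub, smul_smul]
        abel
    have h1 := hBON m A B C hA hB hCc hcA hcB hAn hBn t ht0 ht1 hsub 0 hpA hpB hAB.le
    rw [hC, vol_affine c hc0.le] at h1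
    have h2 : 1 ≤ (vol (pr 0 A) / vol (pr 0 B)) ^ (1 - t) := by
      apply Real.one_le_rpow
      · rw [le_div_iff₀ hpB]; linarith
      · linarith
    have h3 : (vol B - vol A) * t ≤
        (vol B - vol A) * (t * (vol (pr 0 A) / vol (pr 0 B)) ^ (1 - t)) := by
      have h4 : 0 ≤ vol B - vol A := by linarith
      apply mul_le_mul_of_nonneg_left _ h4
      nlinarith
    linarith
  push_cast at main
  linarith

end Pool.Agent.TH516.SH
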