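import Pool.Agent.TH516.SH.Contain
import Pool.Agent.TH516.SH.Volume

/-!
# Covering shadows: assembly
-/

set_option autoImplicit false

namespace Pool.Agent.TH516.SH

open MeasureTheory Set Pool.Agent.W503.EH Filter Topology

/-- the underlying tuple, as a set map -/
def up {n : ℕ} (K : Set (E n)) : Set (Fin n → ℝ) := (WithLp.linearEquiv 2 ℝ (Fin n → ℝ)) '' K

theorem mem_up {n : ℕ} {K : Set (E n)} {z : Fin n → ℝ} :
    z ∈ up K ↔ WithLp.toLp 2 z ∈ K := by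
  constructor
  · rintro ⟨x, hx, rfl⟩
    simpa using hx
  · intro h
    exact ⟨_, h, by simp⟩

theorem vol_up {n : ℕ} {K : Set (E n)} (hK : IsCompact K) : vol (up K) = volume.real K := by
  have e : up K = (fun z : Fin n → ℝ => (WithLp.toLp 2 z : E n)) ⁻¹' K := by
    ext z; exact mem_up
  unfold vol
  rw [e, measureReal_def, measureReal_def,
    (PiLp.volume_preserving_toLp (Fin n)).measure_preimage hK.measurableSet.nullMeasurableSet]

theorem compact_up {n : ℕ} {K : Set (E n)} (hK : IsCompact K) : IsCompact (up K) :=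
  hK.image (PiLp.continuous_ofLp 2 _)

theorem convex_up {n : ℕ} {K : Set (E n)} (hK : Convex ℝ K) : Convex ℝ (up K) :=
  hK.linear_image (WithLp.linearEquiv 2 ℝ (Fin n → ℝ)).toLinearMap

theorem pr_le {m : ℕ} {K L : Set (E (m + 1))} (hL : IsCompact L) (w : E (m + 1))
    (hw : ∀ x ∈ K, ∃ y ∈ L, ∃ s : ℝ, y = x + w + s • (EuclideanSpace.single 0 1 : E (m + 1))) :
    vol (pr 0 (up K)) ≤ vol (pr 0 (up L)) := by
  have hsub : (fun z : Fin m → ℝ => (1 : ℝ) • z + fun i => w i.succ) '' (pr 0 (up K)) ⊆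
      pr 0 (up L) := by
    rintro _ ⟨z, ⟨s, hs⟩, rfl⟩
    rw [mem_up] at hs
    obtain ⟨y, hy, r, hyr⟩ := hw _ hs
    refine ⟨y 0, ?_⟩
    rw [mem_up]
    convert hy using 1
    rw [hyr]
    ext i
    refine Fin.cases ?_ (fun i => ?_) i
    · simp
    · simp
  have h1 := vol_affine 1 zero_le_one (fun i => w i.succ) (pr 0 (up K))
  rw [one_pow, one_mul] at h1
  rw [← h1]
  exact vol_mono hsub (isCompact_pr (compact_up hL) 0)

theorem bound_of_fit0 {m : ℕ} {K L : Set (E (m + 1))} (hKc : IsCompact K) (hKv : Convex ℝ K)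
    (hKn : K.Nonempty) (hLc : IsCompact L) (hLv : Convex ℝ L) (hLn : L.Nonempty)
    (w : E (m + 1))
    (hw : ∀ x ∈ K, ∃ y ∈ L, ∃ s : ℝ, y = x + w + s • (EuclideanSpace.single 0 1 : E (m + 1)))
    (τ : ℝ) (hτ : 1 ≤ τ) (v : E (m + 1))
    (hv : ∀ x ∈ K, ∃ y ∈ L, x + v = τ • y) :
    volume.real K ≤ ((m + 1 : ℝ) * τ - m) * volume.real L := by
  have := vol_bound m (up L) (up K) (compact_up hLc) (compact_up hKc) (convex_up hLv)
    (convex_up hKv) (hLn.image _) (hKn.image _) τ hτ (WithLp.ofLp v) ?_ (pr_le hLc w hw)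
  · rwa [vol_up hLc, vol_up hKc] at this
  · rintro _ ⟨x, hx, rfl⟩
    obtain ⟨y, hy, hxy⟩ := hv x hx
    refine ⟨_, ⟨y, hy, rfl⟩, ?_⟩
    have := congrArg WithLp.ofLp hxy
    simpa using this

theorem bound_of_fit {m : ℕ} {K L : Set (E (m + 1))} (hKc : IsCompact K) (hKv : Convex ℝ K)
    (hKn : K.Nonempty) (hLc : IsCompact L) (hLv : Convex ℝ L) (hLn : L.Nonempty)
    (u : E (m + 1)) (hu : ‖u‖ = 1) (h : CoversShadow u L K) (τ : ℝ) (hτ : 1 ≤ τ) (v : E (m + 1))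
    (hv : ∀ x ∈ K, ∃ y ∈ L, x + v = τ • y) :
    volume.real K ≤ ((m + 1 : ℝ) * τ - m) * volume.real L := by
  obtain ⟨w, hw⟩ := cover_point' u h
  set e : E (m + 1) := EuclideanSpace.single 0 1 with he
  obtain ⟨R, hR⟩ : ∃ R : E (m + 1) ≃ₗᵢ[ℝ] E (m + 1), R u = e := by
    refine ⟨Submodule.reflection (ℝ ∙ (u - e))ᗮ, ?_⟩
    exact Submodule.reflection_sub (by rw [hu, he]; simp)
  have hvol : ∀ X : Set (E (m + 1)), IsCompact X → volume.real (R '' X) = volume.real X := by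
    intro X hX
    have h1 : R '' X = R.symm ⁻¹' X := R.toEquiv.image_eq_preimage_symm X
    rw [h1, measureReal_def, measureReal_def,
      R.symm.measurePreserving.measure_preimage hX.measurableSet.nullMeasurableSet]
  have hconv : ∀ X : Set (E (m + 1)), Convex ℝ X → Convex ℝ (R '' X) := fun X hX =>
    hX.linear_image R.toLinearEquiv.toLinearMap
  have := bound_of_fit0 (hKc.image R.continuous) (hconv K hKv) (hKn.image R)
    (hLc.image R.continuous) (hconv L hLv) (hLn.image R) (R w) ?_ τ hτ (R v) ?_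
  · rwa [hvol K hKc, hvol L hLc] at this
  · rintro _ ⟨x, hx, rfl⟩
    obtain ⟨y, hy, s, hys⟩ := hw x hx
    refine ⟨R y, ⟨y, hy, rfl⟩, s, ?_⟩
    rw [hys, map_add, map_add, map_smul, hR]
  · rintro _ ⟨x, hx, rfl⟩
    obtain ⟨y, hy, hxy⟩ := hv x hx
    refine ⟨R y, ⟨y, hy, rfl⟩, ?_⟩
    rw [← map_add, hxy, map_smul]

theorem one_shadow (n : ℕ) (hn : 1 ≤ n) (K L : Set (E n)) (hKc : IsCompact K) (hKv : Convex ℝ K)
    (hKn : K.Nonempty) (hLc : IsCompact L) (hLv : Convex ℝ L) (hLn : L.Nonempty)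
    (u : E n) (hu : ‖u‖ = 1) (h : CoversShadow u L K) (τ : ℝ) (v : E n) (hτ : 1 ≤ τ)
    (hv : ∀ x ∈ K, ∃ y ∈ L, x + v = τ • y) :
    volume.real K ≤ (n * τ - (n - 1)) * volume.real L := by
  obtain ⟨m, rfl⟩ : ∃ m, n = m + 1 := ⟨n - 1, by omega⟩
  have := bound_of_fit hKc hKv hKn hLc hLv hLn u hu h τ hτ v hv
  push_cast
  convert this using 2
  ring

theorem main (n : ℕ) (hn : 2 ≤ n) (K L : Set (E n)) (hKc : IsCompact K) (hKv : Convex ℝ K)
    (hKn : K.Nonempty) (hLc : IsCompact L) (hLv : Convex ℝ L) (hLn : L.Nonempty)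
    (h : CoversShadows L K) :
    volume.real K ≤ ((2 * n - 1) / (n - 1)) * volume.real L ∧
    (∀ v : E n, (∀ x ∈ K, ∃ y ∈ L, x + v = (1 + 1 / ((n : ℝ) * (n - 1))) • y) →
      volume.real K ≤ ((n : ℝ) / (n - 1)) * volume.real L) := by
  obtain ⟨m, rfl⟩ : ∃ m, n = m + 1 := ⟨n - 1, by omega⟩
  have hm : (1 : ℝ) ≤ m := by exact_mod_cast (by omega : 1 ≤ m)
  have hm0 : (0 : ℝ) < m := by linarith
  have h2 : ∀ (τ : ℝ) (v : E (m + 1)), 1 ≤ τ → (∀ x ∈ K, ∃ y ∈ L, x + v = τ • y) →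
      volume.real K ≤ (((m + 1 : ℕ) : ℝ) * τ - (((m + 1 : ℕ) : ℝ) - 1)) * volume.real L := by
    intro τ v hτ hv
    exact one_shadow (m + 1) (by omega) K L hKc hKv hKn hLc hLv hLn _
      (by simp) (h (EuclideanSpace.single 0 1) (by simp)) τ v hτ hv
  refine ⟨?_, ?_⟩
  · obtain ⟨v, hv⟩ := contain hn hLc hLv hLn hKn h
    have h3 := h2 (((m + 1 : ℕ) : ℝ) / (((m + 1 : ℕ) : ℝ) - 1)) v ?_ ?_
    · refine h3.trans (le_of_eq ?_)
      congr 1
      push_cast
      field_simp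
      ring
    · push_cast
      rw [add_sub_cancel_right, le_div_iff₀ hm0]
      linarith
    · intro x hx
      obtain ⟨y, hy, hxy⟩ := hv x hx
      exact ⟨y, hy, hxy.symm⟩
  · intro v hv
    have h3 := h2 (1 + 1 / (((m + 1 : ℕ) : ℝ) * (((m + 1 : ℕ) : ℝ) - 1))) v ?_ hv
    · refine h3.trans (le_of_eq ?_)
      congr 1
      push_cast
      rw [add_sub_cancel_right]
      field_simp
      ring
    · push_cast
      rw [add_sub_cancel_right]
      have : 0 ≤ 1 / (((m : ℝ) + 1) * m) := by positivity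
      linarith

end Pool.Agent.TH516.SH
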