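import Mathlib

set_option autoImplicit false

/-!
# Covering shadows when the covering body is a simplex: geometry and volume
-/

namespace Pool.Agent.TH516.SH.Simplex

open MeasureTheory Set Finset
open scoped ENNReal Pointwise

variable {n : ℕ}

section basics

variable (b : AffineBasis (Fin (n + 1)) ℝ (EuclideanSpace ℝ (Fin n)))

theorem coord_add (i : Fin (n + 1)) (x v : EuclideanSpace ℝ (Fin n)) :
    b.coord i (x + v) = b.coord i x + (b.coord i).linear v := by
  have h := (b.coord i).map_vadd x v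
  rw [vadd_eq_add, vadd_eq_add] at h
  rw [add_comm x v, h, add_comm]

theorem sum_coord (x : EuclideanSpace ℝ (Fin n)) : ∑ i, b.coord i x = 1 :=
  b.sum_coord_apply_eq_one x

theorem sum_lin (v : EuclideanSpace ℝ (Fin n)) : ∑ i, (b.coord i).linear v = 0 := by
  have h1 := sum_coord b (0 + v)
  have h2 := sum_coord b 0
  simp only [coord_add, sum_add_distrib] at h1
  linarith

theorem exists_vec (r : Fin (n + 1) → ℝ) (hr : ∑ i, r i = 0) :
    ∃ v : EuclideanSpace ℝ (Fin n), ∀ i, (b.coord i).linear v = r i := by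
  refine ⟨∑ j, r j • b j, fun i => ?_⟩
  have h1 : ∀ j, (b.coord i).linear (b j) = (if j = i then 1 else 0) - b.coord i 0 := by
    intro j
    have h := coord_add b i 0 (b j)
    rw [zero_add] at h
    have h' : b.coord i (b j) = if j = i then 1 else 0 := by
      rw [b.coord_apply]
      by_cases hij : i = j
      · simp [hij]
      · rw [if_neg hij, if_neg (fun h => hij h.symm)]
    linarith
  rw [map_sum]
  simp only [map_smul, h1, smul_eq_mul, mul_sub, sum_sub_distrib, mul_ite, mul_one, mul_zero,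
    Finset.sum_ite_eq', Finset.mem_univ, if_true]
  rw [← sum_mul, hr]
  simp

theorem exists_pt (t : Fin (n + 1) → ℝ) (ht : ∑ i, t i = 1) :
    ∃ x : EuclideanSpace ℝ (Fin n), ∀ i, b.coord i x = t i := by
  obtain ⟨v, hv⟩ := exists_vec b (fun i => t i - b.coord i 0) (by
    rw [sum_sub_distrib, ht, sum_coord b 0]; ring)
  refine ⟨0 + v, fun i => ?_⟩
  rw [coord_add, hv]
  ring

/-- the simplex as a set of nonnegative coordinates -/
theorem simplex_eq : convexHull ℝ (Set.range b) = {x | ∀ i, 0 ≤ b.coord i x} :=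
  b.convexHull_eq_nonneg_coord

theorem hyper_null (i : Fin (n + 1)) (t : ℝ) (hn : 1 ≤ n) :
    volume {x : EuclideanSpace ℝ (Fin n) | b.coord i x = t} = 0 := by
  obtain ⟨j, hj⟩ : ∃ j : Fin (n + 1), j ≠ i := by
    have : Nontrivial (Fin (n + 1)) := Fin.nontrivial_iff_two_le.2 (by omega)
    exact exists_ne i
  obtain ⟨w, hw⟩ := exists_vec b (fun k => (if k = i then 1 else 0) - (if k = j then 1 else 0))
    (by rw [sum_sub_distrib]; simp)
  have hwi : (b.coord i).linear w = 1 := by
    rw [hw i]; simp [hj.symm]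
  obtain ⟨x0, hx0⟩ : ∃ x0 : EuclideanSpace ℝ (Fin n), b.coord i x0 = t := by
    refine ⟨0 + (t - b.coord i 0) • w, ?_⟩
    rw [coord_add, map_smul, hwi]
    simp
  have hsub : {x : EuclideanSpace ℝ (Fin n) | b.coord i x = t} ⊆
      x0 +ᵥ (LinearMap.ker (b.coord i).linear : Set (EuclideanSpace ℝ (Fin n))) := by
    intro x hx
    refine ⟨x - x0, ?_, ?_⟩
    · change (b.coord i).linear (x - x0) = 0
      have h := coord_add b i x0 (x - x0)
      rw [add_sub_cancel] at h
      have hx' : b.coord i x = t := hx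
      rw [hx', hx0] at h
      linarith
    · change x0 + (x - x0) = x
      abel
  refine measure_mono_null hsub ?_
  rw [measure_vadd]
  apply Measure.addHaar_submodule
  intro htop
  have h1 : w ∈ LinearMap.ker (b.coord i).linear := by rw [htop]; trivial
  rw [LinearMap.mem_ker, hwi] at h1
  exact one_ne_zero h1

/-- homothetic copies -/
theorem hom_exists (r : ℝ) (s : Fin (n + 1) → ℝ) (h : r + ∑ i, s i = 1) :
    ∃ v : EuclideanSpace ℝ (Fin n), ∀ x i, b.coord i (r • x + v) = r * b.coord i x + s i := by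
  obtain ⟨v, hv⟩ := exists_vec b (fun i => s i - (1 - r) * b.coord i 0) (by
    rw [sum_sub_distrib, ← mul_sum, sum_coord b 0]; linarith)
  refine ⟨v, fun x i => ?_⟩
  have h1 := coord_add b i 0 (r • x)
  have h2 := coord_add b i 0 x
  rw [zero_add] at h1 h2
  rw [coord_add, hv, h1, h2, map_smul, smul_eq_mul]
  ring

theorem hom_vol (r : ℝ) (hr : 0 ≤ r) (v : EuclideanSpace ℝ (Fin n))
    (S : Set (EuclideanSpace ℝ (Fin n))) :
    volume ((fun x => r • x + v) '' S) = ENNReal.ofReal (r ^ n) * volume S := by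
  have h1 : (fun x => r • x + v) '' S = v +ᵥ (r • S) := by
    ext y
    constructor
    · rintro ⟨x, hx, rfl⟩
      exact ⟨r • x, ⟨x, hx, rfl⟩, by change v + r • x = r • x + v; abel⟩
    · rintro ⟨_, ⟨x, hx, rfl⟩, rfl⟩
      exact ⟨x, hx, by change r • x + v = v + r • x; abel⟩
  rw [h1, measure_vadd, Measure.addHaar_smul]
  rw [finrank_euclideanSpace, Fintype.card_fin, abs_of_nonneg (pow_nonneg hr n)]

/-- the reflected simplex on the facet `i` -/
theorem refl_exists (i : Fin (n + 1)) (hn : 2 ≤ n) :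
    ∃ T : EuclideanSpace ℝ (Fin n) → EuclideanSpace ℝ (Fin n),
      (∀ x, b.coord i (T x) = - b.coord i x / ((n : ℝ) - 1)) ∧
      (∀ x j, j ≠ i → b.coord j (T x) = b.coord j x + b.coord i x / ((n : ℝ) - 1)) ∧
      (∀ S : Set (EuclideanSpace ℝ (Fin n)),
        volume (T '' S) = ENNReal.ofReal (1 / ((n : ℝ) - 1)) * volume S) := by
  have hn2 : (2 : ℝ) ≤ n := by exact_mod_cast hn
  have hn1 : (n : ℝ) - 1 ≠ 0 := by linarith
  obtain ⟨w, hw⟩ := exists_vec b
    (fun j => 1 / ((n : ℝ) - 1) - (if j = i then ((n : ℝ) + 1) / ((n : ℝ) - 1) else 0)) (by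
      rw [sum_sub_distrib]
      simp only [sum_const, card_univ, Fintype.card_fin, Finset.sum_ite_eq', Finset.mem_univ,
        if_true, nsmul_eq_mul]
      push_cast
      field_simp
      ring)
  have hwi : (b.coord i).linear w = - n / ((n : ℝ) - 1) := by
    rw [hw i, if_pos rfl]
    field_simp
    ring
  have hwj : ∀ j, j ≠ i → (b.coord j).linear w = 1 / ((n : ℝ) - 1) := by
    intro j hj
    rw [hw j, if_neg hj, sub_zero]
  refine ⟨fun x => x + b.coord i x • w, fun x => ?_, fun x j hj => ?_, fun S => ?_⟩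
  · rw [coord_add, map_smul, hwi, smul_eq_mul]
    field_simp
    ring
  · rw [coord_add, map_smul, hwj j hj, smul_eq_mul]
    ring
  · have h1 : (fun x => x + b.coord i x • w) '' S =
        (b.coord i 0 • w) +ᵥ (LinearMap.transvection (b.coord i).linear w '' S) := by
      have h2 : ∀ x, x + b.coord i x • w =
          b.coord i 0 • w + LinearMap.transvection (b.coord i).linear w x := by
        intro x
        have h := coord_add b i 0 x
        rw [zero_add] at h
        rw [LinearMap.transvection.apply, h, add_smul]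
        abel
      ext y
      constructor
      · rintro ⟨x, hx, rfl⟩
        exact ⟨_, ⟨x, hx, rfl⟩, (h2 x).symm⟩
      · rintro ⟨_, ⟨x, hx, rfl⟩, rfl⟩
        exact ⟨x, hx, h2 x⟩
    rw [h1, measure_vadd, Measure.addHaar_image_linearMap, LinearMap.transvection.det, hwi]
    congr 2
    have h3 : 1 + -(n : ℝ) / ((n : ℝ) - 1) = -(1 / ((n : ℝ) - 1)) := by
      field_simp
      ring
    rw [h3, abs_neg, abs_of_nonneg]
    apply div_nonneg zero_le_one
    linarith

/-- the volume of the copy `{λ_j ≥ s}` -/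
theorem A_vol (s r : ℝ) (h : r + (n + 1) * s = 1) (hr : 0 < r) :
    volume {y : EuclideanSpace ℝ (Fin n) | ∀ j, s ≤ b.coord j y} =
      ENNReal.ofReal (r ^ n) * volume {x : EuclideanSpace ℝ (Fin n) | ∀ i, 0 ≤ b.coord i x} := by
  obtain ⟨v, hv⟩ := hom_exists b r (fun _ => s) (by simpa using h)
  rw [← hom_vol r hr.le v]
  congr 1
  ext y
  constructor
  · intro hy
    obtain ⟨x, hx⟩ := exists_pt b (fun j => (b.coord j y - s) / r) (by
      rw [← sum_div, sum_sub_distrib, sum_coord b y, div_eq_one_iff_eq hr.ne']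
      simp
      linarith)
    refine ⟨x, fun j => ?_, ?_⟩
    · rw [hx]
      exact div_nonneg (by linarith [hy j]) hr.le
    · apply b.ext_elem
      intro j
      rw [hv, hx]
      field_simp
      ring
  · rintro ⟨x, hx, rfl⟩ j
    change s ≤ b.coord j (r • x + v)
    rw [hv]
    have := mul_nonneg hr.le (hx j)
    linarith

/-- the volume of the reflected copy -/
theorem B_vol (i : Fin (n + 1)) (hn : 2 ≤ n) (c d r : ℝ) (h : r = 1 - n * d + (n - 1) * c)
    (hr : 0 < r) :
    volume {y : EuclideanSpace ℝ (Fin n) | b.coord i y ≤ c ∧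
        ∀ j, j ≠ i → d ≤ b.coord i y + b.coord j y} =
      ENNReal.ofReal (r ^ n) * (ENNReal.ofReal (1 / ((n : ℝ) - 1)) *
        volume {x : EuclideanSpace ℝ (Fin n) | ∀ i, 0 ≤ b.coord i x}) := by
  have hn2 : (2 : ℝ) ≤ n := by exact_mod_cast hn
  have hn1 : (0 : ℝ) < (n : ℝ) - 1 := by linarith
  obtain ⟨T, hTi, hTj, hT⟩ := refl_exists b i hn
  obtain ⟨v, hv⟩ := hom_exists b r (fun j => (d - c) + (if j = i then (2 * c - d) else 0)) (by
    rw [sum_add_distrib]
    simp only [sum_const, card_univ, Fintype.card_fin, Finset.sum_ite_eq', Finset.mem_univ,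
        if_true, nsmul_eq_mul]
    rw [h]
    push_cast
    ring)
  rw [← hT, ← hom_vol r hr.le v]
  congr 1
  ext y
  constructor
  · rintro ⟨hy1, hy2⟩
    obtain ⟨x, hx⟩ := exists_pt b (fun j => (b.coord i y + b.coord j y - d) / r +
      (if j = i then (((n : ℝ) - 1) * (c - b.coord i y) - (2 * b.coord i y - d)) / r else 0)) (by
      rw [sum_add_distrib, ← sum_div, sum_sub_distrib, sum_add_distrib, sum_coord b y]
      simp only [sum_const, card_univ, Fintype.card_fin, Finset.sum_ite_eq', Finset.mem_univ,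
        if_true, nsmul_eq_mul]
      rw [← add_div, div_eq_one_iff_eq hr.ne', h]
      push_cast
      ring)
    have hxi : b.coord i x = ((n : ℝ) - 1) * (c - b.coord i y) / r := by
      rw [hx, if_pos rfl]
      ring
    have hxj : ∀ j, j ≠ i → b.coord j x = (b.coord i y + b.coord j y - d) / r := by
      intro j hj
      rw [hx, if_neg hj, add_zero]
    refine ⟨T x, ⟨x, fun j => ?_, rfl⟩, ?_⟩
    · by_cases hj : j = i
      · rw [hj, hxi]
        exact div_nonneg (mul_nonneg hn1.le (by linarith)) hr.le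
      · rw [hxj j hj]
        exact div_nonneg (by linarith [hy2 j hj]) hr.le
    · apply b.ext_elem
      intro j
      rw [hv]
      by_cases hj : j = i
      · rw [hj, hTi, hxi, if_pos rfl]
        field_simp
        ring
      · rw [hTj x j hj, hxi, hxj j hj, if_neg hj]
        field_simp
        ring
  · rintro ⟨_, ⟨x, hx, rfl⟩, rfl⟩
    have e1 : b.coord i (r • T x + v) = r * (- b.coord i x / ((n : ℝ) - 1)) + c := by
      rw [hv, hTi, if_pos rfl]
      ring
    have e2 : ∀ j, j ≠ i → b.coord j (r • T x + v) =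
        r * (b.coord j x + b.coord i x / ((n : ℝ) - 1)) + (d - c) := by
      intro j hj
      rw [hv, hTj x j hj, if_neg hj, add_zero]
    refine ⟨?_, fun j hj => ?_⟩
    · change b.coord i (r • T x + v) ≤ c
      rw [e1]
      have : 0 ≤ r * (b.coord i x / ((n : ℝ) - 1)) :=
        mul_nonneg hr.le (div_nonneg (hx i) hn1.le)
      have h3 : r * (- b.coord i x / ((n : ℝ) - 1)) = -(r * (b.coord i x / ((n : ℝ) - 1))) := by
        ring
      linarith
    · change d ≤ b.coord i (r • T x + v) + b.coord j (r • T x + v)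
      rw [e1, e2 j hj]
      have h3 : r * (- b.coord i x / ((n : ℝ) - 1)) + c +
          (r * (b.coord j x + b.coord i x / ((n : ℝ) - 1)) + (d - c)) = r * b.coord j x + d := by
        ring
      rw [h3]
      have := mul_nonneg hr.le (hx j)
      linarith

end basics

end Pool.Agent.TH516.SH.Simplex
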