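import Pool.Agent.TH516.SH.SimplexVol

set_option autoImplicit false

/-!
# Covering shadows when the covering body is a simplex: the upper bound
-/

namespace Pool.Agent.TH516.SH.Simplex

open MeasureTheory Set Finset
open scoped ENNReal Pointwise

/-- the numerical optimum -/
theorem num_bound (n : ℕ) (hn : 2 ≤ n) (ρ x : ℝ) (hρ : 1 ≤ ρ)
    (hρn : ρ ^ (n - 1) = ((n : ℝ) + 1) / n) (hx : 0 ≤ x) :
    (2 * n * ((1 + x) / 2) ^ n - (n + 1) * x ^ n) / ((n : ℝ) - 1) ≤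
      (((n : ℝ) + 1) / (n - 1)) / (2 * ρ - 1) ^ (n - 1) := by
  obtain ⟨m, rfl⟩ : ∃ m, n = m + 1 := ⟨n - 1, by omega⟩
  have hm : 1 ≤ m := by omega
  have hm1 : (1 : ℝ) ≤ m := by exact_mod_cast hm
  rw [Nat.add_sub_cancel] at hρn ⊢
  push_cast at hρn ⊢
  have h2ρ : 0 < 2 * ρ - 1 := by linarith
  have hconv := (convexOn_pow (𝕜 := ℝ) (m + 1)).2
    (show x * ρ ∈ Set.Ici (0 : ℝ) by simp only [Set.mem_Ici]; positivity)
    (show ρ / (2 * ρ - 1) ∈ Set.Ici (0 : ℝ) by simp only [Set.mem_Ici]; positivity)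
    (show 0 ≤ 1 / (2 * ρ) by positivity) (show 0 ≤ (2 * ρ - 1) / (2 * ρ) by positivity)
    (by field_simp; ring)
  simp only [smul_eq_mul] at hconv
  have e1 : 1 / (2 * ρ) * (x * ρ) + (2 * ρ - 1) / (2 * ρ) * (ρ / (2 * ρ - 1)) = (1 + x) / 2 := by
    field_simp
    ring
  have e2 : 1 / (2 * ρ) * (x * ρ) ^ (m + 1) + (2 * ρ - 1) / (2 * ρ) * (ρ / (2 * ρ - 1)) ^ (m + 1)
      = ρ ^ m * (x ^ (m + 1) / 2 + 1 / (2 * (2 * ρ - 1) ^ m)) := by
    rw [mul_pow, div_pow, pow_succ ρ m, pow_succ (2 * ρ - 1) m]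
    field_simp
  rw [e1, e2, hρn] at hconv
  have h3 : 2 * ((m : ℝ) + 1) * ((1 + x) / 2) ^ (m + 1) ≤
      2 * ((m : ℝ) + 1) * (((m : ℝ) + 1 + 1) / (m + 1) *
        (x ^ (m + 1) / 2 + 1 / (2 * (2 * ρ - 1) ^ m))) := by
    gcongr
  have h4 : 2 * ((m : ℝ) + 1) * (((m : ℝ) + 1 + 1) / (m + 1) *
        (x ^ (m + 1) / 2 + 1 / (2 * (2 * ρ - 1) ^ m))) =
      ((m : ℝ) + 1 + 1) * x ^ (m + 1) + ((m : ℝ) + 1 + 1) / (2 * ρ - 1) ^ m := by
    field_simp
  rw [h4] at h3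
  have h5 : ((m : ℝ) + 1 + 1) / ((m : ℝ) + 1 - 1) / (2 * ρ - 1) ^ m =
      ((m : ℝ) + 1 + 1) / (2 * ρ - 1) ^ m / ((m : ℝ) + 1 - 1) := by
    field_simp
  rw [h5]
  apply div_le_div_of_nonneg_right _ (by linarith)
  linarith

variable {n : ℕ} (b : AffineBasis (Fin (n + 1)) ℝ (EuclideanSpace ℝ (Fin n)))

theorem lin_sub (i : Fin (n + 1)) (x y : EuclideanSpace ℝ (Fin n)) :
    (b.coord i).linear (x - y) = b.coord i x - b.coord i y := by
  have h := coord_add b i y (x - y)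
  rw [add_sub_cancel] at h
  linarith

/-- The geometric part: a translate of `K` satisfies the coordinate inequalities. -/
theorem geom (hn : 2 ≤ n) (K : Set (EuclideanSpace ℝ (Fin n))) (hK : IsCompact K)
    (hKn : K.Nonempty)
    (hc : ∀ i j : Fin (n + 1), j ≠ i → ∃ v : EuclideanSpace ℝ (Fin n), ∀ x ∈ K,
      (∀ k, k ≠ i → k ≠ j → 0 ≤ b.coord k x + (b.coord k).linear v) ∧
      0 ≤ b.coord i x + b.coord j x + (b.coord i).linear v + (b.coord j).linear v) :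
    ∃ (z : EuclideanSpace ℝ (Fin n)) (ε : ℝ),
      (∀ x ∈ K, ∀ i, -ε ≤ b.coord i (x + z)) ∧
      (∀ x ∈ K, ∀ i j, j ≠ i → ((n : ℝ) - 1) * ε ≤ b.coord i (x + z) + b.coord j (x + z)) ∧
      ((n : ℝ) ^ 2 - 1) * ε ≤ 1 := by
  have hn2 : (2 : ℝ) ≤ n := by exact_mod_cast hn
  have hmin : ∀ i, ∃ x ∈ K, ∀ y ∈ K, b.coord i x ≤ b.coord i y := fun i =>
    hK.exists_isMinOn hKn (coord_cont b i).continuousOn
  choose p hpK hp using hmin
  set m : Fin (n + 1) → ℝ := fun i => b.coord i (p i) with hm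
  set ε : ℝ := -(∑ i, m i) / (n + 1) with hε
  have hεs : ∑ i, m i = -((n + 1) * ε) := by
    rw [hε]
    field_simp
  obtain ⟨z, hz⟩ := exists_vec b (fun i => -m i - ε) (by
    rw [sum_sub_distrib, sum_neg_distrib, hεs]
    simp)
  have h1 : ∀ x ∈ K, ∀ i, -ε ≤ b.coord i (x + z) := by
    intro x hx i
    rw [coord_add, hz]
    have := hp i x hx
    simp only [hm]
    linarith
  have h2 : ∀ x ∈ K, ∀ i j, j ≠ i →
      ((n : ℝ) - 1) * ε ≤ b.coord i (x + z) + b.coord j (x + z) := by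
    intro x hx i j hij
    obtain ⟨v, hv⟩ := hc i j hij
    have h3 : ∀ k ∈ (univ.erase i).erase j, -m k ≤ (b.coord k).linear v := by
      intro k hk
      rw [Finset.mem_erase, Finset.mem_erase] at hk
      have := (hv (p k) (hpK k)).1 k hk.2.1 hk.1
      simp only [hm]
      linarith
    have h4 := Finset.sum_le_sum h3
    have h5 : ∀ f : Fin (n + 1) → ℝ, ∑ k ∈ (univ.erase i).erase j, f k = ∑ k, f k - f i - f j := by
      intro f
      rw [Finset.sum_erase_eq_sub (Finset.mem_erase.2 ⟨hij, Finset.mem_univ _⟩),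
        Finset.sum_erase_eq_sub (Finset.mem_univ _)]
    rw [h5, h5, sum_neg_distrib, hεs, sum_lin b v] at h4
    have h6 := (hv x hx).2
    rw [coord_add, coord_add, hz, hz]
    linarith
  refine ⟨z, ε, h1, h2, ?_⟩
  -- a minimal point
  obtain ⟨i⟩ : Nonempty (Fin (n + 1)) := ⟨0⟩
  have h3 : b.coord i (p i + z) = -ε := by
    rw [coord_add, hz]
    simp only [hm]
    ring
  have h4 := Finset.sum_le_sum (s := univ.erase i)
    (fun j hj => h2 (p i) (hpK i) i j (Finset.ne_of_mem_erase hj))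
  have h7 : ∑ x ∈ univ.erase i, b.coord x (p i + z) = 1 - b.coord i (p i + z) := by
    rw [Finset.sum_erase_eq_sub (Finset.mem_univ _), sum_coord b]
  rw [sum_add_distrib, h7] at h4
  simp only [sum_const, Finset.card_erase_of_mem (Finset.mem_univ i), card_univ, Fintype.card_fin,
    nsmul_eq_mul, Nat.add_sub_cancel, h3] at h4
  nlinarith

/-- The upper bound. -/
theorem upper (hn : 2 ≤ n) (ρ : ℝ) (hρ : 1 ≤ ρ) (hρn : ρ ^ (n - 1) = ((n : ℝ) + 1) / n)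
    (K : Set (EuclideanSpace ℝ (Fin n))) (hK : IsCompact K)
    (hKn : K.Nonempty)
    (hc : ∀ i j : Fin (n + 1), j ≠ i → ∃ v : EuclideanSpace ℝ (Fin n), ∀ x ∈ K,
      (∀ k, k ≠ i → k ≠ j → 0 ≤ b.coord k x + (b.coord k).linear v) ∧
      0 ≤ b.coord i x + b.coord j x + (b.coord i).linear v + (b.coord j).linear v) :
    volume.real K ≤ ((((n : ℝ) + 1) / (n - 1)) / (2 * ρ - 1) ^ (n - 1)) *
      volume.real (convexHull ℝ (Set.range b)) := by
  have hn2 : (2 : ℝ) ≤ n := by exact_mod_cast hn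
  obtain ⟨z, ε, h1, h2, h3⟩ := geom b hn K hK hKn hc
  rw [simplex_eq]
  have htr : volume.real K = volume.real (z +ᵥ K) := by
    rw [Measure.real, Measure.real, measure_vadd]
  have hP1 : ∀ x ∈ z +ᵥ K, ∀ i, -ε ≤ b.coord i x := by
    rintro _ ⟨x, hx, rfl⟩ i
    change -ε ≤ b.coord i (z + x)
    rw [add_comm z x]
    exact h1 x hx i
  have hP2 : ∀ x ∈ z +ᵥ K, ∀ i j, j ≠ i → ((n : ℝ) - 1) * ε ≤ b.coord i x + b.coord j x := by
    rintro _ ⟨x, hx, rfl⟩ i j hij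
    change _ ≤ b.coord i (z + x) + b.coord j (z + x)
    rw [add_comm z x]
    exact h2 x hx i j hij
  have hV0 : 0 ≤ volume.real {x : EuclideanSpace ℝ (Fin n) | ∀ i, 0 ≤ b.coord i x} :=
    measureReal_nonneg
  rw [htr]
  rcases le_total ε 0 with h | h
  · have h4 : volume.real (z +ᵥ K) ≤
        volume.real {x : EuclideanSpace ℝ (Fin n) | ∀ i, 0 ≤ b.coord i x} := by
      apply measureReal_mono _ (L_ne_top b)
      intro x hx i
      linarith [hP1 x hx i]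
    refine h4.trans ?_
    have h5 := num_bound n hn ρ 1 hρ hρn zero_le_one
    have h6 : (2 * n * ((1 + (1 : ℝ)) / 2) ^ n - (n + 1) * (1 : ℝ) ^ n) / ((n : ℝ) - 1) = 1 := by
      rw [show (1 + (1 : ℝ)) / 2 = 1 by norm_num, one_pow, div_eq_one_iff_eq (by linarith)]
      ring
    rw [h6] at h5
    nlinarith
  · refine (P_vol b hn ε _ rfl h h3 _ hP1 hP2).trans ?_
    have h5 := num_bound n hn ρ (1 - ((n : ℝ) ^ 2 - 1) * ε) hρ hρn (by linarith)
    rw [show (1 + (1 - ((n : ℝ) ^ 2 - 1) * ε)) / 2 = 1 - ((n : ℝ) ^ 2 - 1) * ε / 2 by ring] at h5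
    exact mul_le_mul_of_nonneg_right h5 hV0

end Pool.Agent.TH516.SH.Simplex
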