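import Pool.Agent.TH516.SH.Simplex

set_option autoImplicit false

/-!
# Covering shadows when the covering body is a simplex: the volume of the truncated simplex
-/

namespace Pool.Agent.TH516.SH.Simplex

open MeasureTheory Set Finset
open scoped ENNReal Pointwise

variable {n : ℕ} (b : AffineBasis (Fin (n + 1)) ℝ (EuclideanSpace ℝ (Fin n)))

theorem L_ne_top : volume {x : EuclideanSpace ℝ (Fin n) | ∀ i, 0 ≤ b.coord i x} ≠ ⊤ := by
  rw [← simplex_eq]
  exact ((Set.finite_range b).isCompact_convexHull ℝ).measure_ne_top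

theorem coord_cont (i : Fin (n + 1)) : Continuous (b.coord i) :=
  (b.coord i).continuous_of_finiteDimensional

/-- The volume of the truncated simplex. -/
theorem P_vol (hn : 2 ≤ n) (ε θ : ℝ) (hθe : θ = ((n : ℝ) ^ 2 - 1) * ε) (hε : 0 ≤ ε) (hθ : θ ≤ 1)
    (P : Set (EuclideanSpace ℝ (Fin n)))
    (hP1 : ∀ x ∈ P, ∀ i, -ε ≤ b.coord i x)
    (hP2 : ∀ x ∈ P, ∀ i j, j ≠ i → ((n : ℝ) - 1) * ε ≤ b.coord i x + b.coord j x) :
    volume.real P ≤ ((2 * n * (1 - θ / 2) ^ n - (n + 1) * (1 - θ) ^ n) / ((n : ℝ) - 1)) *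
      volume.real {x : EuclideanSpace ℝ (Fin n) | ∀ i, 0 ≤ b.coord i x} := by
  have hn2 : (2 : ℝ) ≤ n := by exact_mod_cast hn
  have hn1 : (0 : ℝ) < (n : ℝ) - 1 := by linarith
  have hLt := L_ne_top b
  set L := {x : EuclideanSpace ℝ (Fin n) | ∀ i, 0 ≤ b.coord i x} with hL
  set V := volume.real L with hV
  have hV0 : 0 ≤ V := measureReal_nonneg
  have hθ0 : 0 ≤ θ := by
    rw [hθe]
    apply mul_nonneg _ hε
    nlinarith
  have hα : 0 < 1 - θ / 2 := by linarith
  have hβ : 0 ≤ 1 - θ := by linarith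
  set d := ((n : ℝ) - 1) * ε with hd
  -- the pieces
  set A := {y : EuclideanSpace ℝ (Fin n) | ∀ j, d / 2 ≤ b.coord j y} with hA
  set B : ℝ → Fin (n + 1) → Set (EuclideanSpace ℝ (Fin n)) := fun c i =>
    {y | b.coord i y ≤ c ∧ ∀ j, j ≠ i → d ≤ b.coord i y + b.coord j y} with hB
  have hAv : volume A = ENNReal.ofReal ((1 - θ / 2) ^ n) * volume L :=
    A_vol b (d / 2) (1 - θ / 2) (by rw [hd, hθe]; ring) hα
  have hAr : volume.real A = (1 - θ / 2) ^ n * V := by
    rw [Measure.real, hAv, ENNReal.toReal_mul, ENNReal.toReal_ofReal (by positivity)]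
    rfl
  have hBv : ∀ i, volume (B (d / 2) i) = ENNReal.ofReal ((1 - θ / 2) ^ n) *
      (ENNReal.ofReal (1 / ((n : ℝ) - 1)) * volume L) := fun i =>
    B_vol b i hn (d / 2) d (1 - θ / 2) (by rw [hd, hθe]; ring) hα
  have hBr : ∀ i, volume.real (B (d / 2) i) = (1 - θ / 2) ^ n * (1 / ((n : ℝ) - 1) * V) := by
    intro i
    rw [Measure.real, hBv, ENNReal.toReal_mul, ENNReal.toReal_mul,
      ENNReal.toReal_ofReal (by positivity), ENNReal.toReal_ofReal (by positivity)]
    rfl
  have hBt : ∀ i, volume (B (d / 2) i) ≠ ⊤ := by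
    intro i
    rw [hBv]
    exact ENNReal.mul_ne_top ENNReal.ofReal_ne_top (ENNReal.mul_ne_top ENNReal.ofReal_ne_top hLt)
  have hBsub : ∀ i, B (-ε) i ⊆ B (d / 2) i := by
    rintro i y ⟨h1, h2⟩
    refine ⟨?_, h2⟩
    have : 0 ≤ d := mul_nonneg hn1.le hε
    linarith
  have hBr' : ∀ i, (1 - θ) ^ n * (1 / ((n : ℝ) - 1) * V) ≤ volume.real (B (-ε) i) := by
    intro i
    rcases hβ.eq_or_lt with h0 | h0
    · rw [← h0, zero_pow (by omega), zero_mul]
      exact measureReal_nonneg
    · have := B_vol b i hn (-ε) d (1 - θ) (by rw [hd, hθe]; ring) h0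
      rw [Measure.real, hB]
      simp only
      rw [this, ENNReal.toReal_mul, ENNReal.toReal_mul,
        ENNReal.toReal_ofReal (by positivity), ENNReal.toReal_ofReal (by positivity)]
      rfl
  -- the caps
  have hcap : ∀ i, volume.real (P ∩ {y | b.coord i y < d / 2}) ≤
      ((1 - θ / 2) ^ n - (1 - θ) ^ n) * (1 / ((n : ℝ) - 1) * V) := by
    intro i
    have hsub : (P ∩ {y | b.coord i y < d / 2}) ⊆ B (d / 2) i := by
      rintro y ⟨hy1, hy2⟩
      exact ⟨le_of_lt hy2, fun j hj => hP2 y hy1 i j hj⟩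
    have hmeas : MeasurableSet (B (-ε) i) := by
      have h1 : IsClosed (B (-ε) i) := by
        have : B (-ε) i = {y | b.coord i y ≤ -ε} ∩
            ⋂ j, ⋂ (_ : j ≠ i), {y | d ≤ b.coord i y + b.coord j y} := by
          ext y
          simp [hB]
        rw [this]
        refine (isClosed_le (coord_cont b i) continuous_const).inter
          (isClosed_iInter fun j => isClosed_iInter fun _ =>
            isClosed_le continuous_const ((coord_cont b i).add (coord_cont b j)))
      exact h1.measurableSet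
    have hdisj : AEDisjoint volume (P ∩ {y | b.coord i y < d / 2}) (B (-ε) i) := by
      refine measure_mono_null ?_ (hyper_null b i (-ε) (by omega))
      rintro y ⟨⟨hy1, hy2⟩, hy3, hy4⟩
      exact le_antisymm hy3 (hP1 y hy1 i)
    have h1 := measure_union₀ hmeas.nullMeasurableSet hdisj
    have h2 : volume ((P ∩ {y | b.coord i y < d / 2}) ∪ B (-ε) i) ≤ volume (B (d / 2) i) :=
      measure_mono (union_subset hsub (hBsub i))
    rw [h1] at h2
    have h3 := ENNReal.toReal_mono (hBt i) h2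
    rw [ENNReal.toReal_add (ne_top_of_le_ne_top (hBt i) (measure_mono hsub))
      (ne_top_of_le_ne_top (hBt i) (measure_mono (hBsub i)))] at h3
    have h4 := hBr i
    have h5 := hBr' i
    rw [Measure.real] at h4 h5
    rw [Measure.real]
    linarith
  have hcov : P ⊆ A ∪ ⋃ i, (P ∩ {y | b.coord i y < d / 2}) := by
    intro y hy
    by_cases h : ∀ j, d / 2 ≤ b.coord j y
    · exact Or.inl h
    · push Not at h
      obtain ⟨j, hj⟩ := h
      exact Or.inr (mem_iUnion.2 ⟨j, hy, hj⟩)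
  have hfin : volume (A ∪ ⋃ i, (P ∩ {y | b.coord i y < d / 2})) ≠ ⊤ := by
    apply ne_of_lt
    refine (measure_union_le _ _).trans_lt (ENNReal.add_lt_top.2 ⟨?_, ?_⟩)
    · rw [hAv]
      exact ENNReal.mul_lt_top ENNReal.ofReal_lt_top hLt.lt_top
    · refine (measure_iUnion_fintype_le _ _).trans_lt (ENNReal.sum_lt_top.2 fun i _ => ?_)
      refine (measure_mono ?_).trans_lt (hBt i).lt_top
      rintro y ⟨hy1, hy2⟩
      exact ⟨le_of_lt hy2, fun j hj => hP2 y hy1 i j hj⟩
  calc volume.real P ≤ volume.real (A ∪ ⋃ i, (P ∩ {y | b.coord i y < d / 2})) :=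
        measureReal_mono hcov hfin
    _ ≤ volume.real A + volume.real (⋃ i, (P ∩ {y | b.coord i y < d / 2})) :=
        measureReal_union_le _ _
    _ ≤ volume.real A + ∑ i, volume.real (P ∩ {y | b.coord i y < d / 2}) := by
        gcongr
        exact measureReal_iUnion_fintype_le _
    _ ≤ (1 - θ / 2) ^ n * V + ∑ _i : Fin (n + 1),
        ((1 - θ / 2) ^ n - (1 - θ) ^ n) * (1 / ((n : ℝ) - 1) * V) := by
        rw [hAr]
        gcongr with i _
        exact hcap i
    _ = _ := by
        rw [sum_const, card_univ, Fintype.card_fin, nsmul_eq_mul]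
        push_cast
        field_simp
        ring

end Pool.Agent.TH516.SH.Simplex
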